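import Pool.Agent.H18.Tau4

set_option autoImplicit false

namespace Pool.Agent.Results.MP_bc74b8_gt.SplitTT

open Pool.Agent.H18.Tau

/-- large family of sets with the `τ` comparability property -/
def TauFam {Z : Type} (𝒰 : Set (Set Z)) : Prop :=
  (∀ x : Z, {u ∈ 𝒰 | x ∈ u}.Infinite) ∧
    ∀ x y : Z, {u ∈ 𝒰 | x ∈ u ∧ y ∉ u}.Finite ∨ {u ∈ 𝒰 | y ∈ u ∧ x ∉ u}.Finite

/-- `Split(T, T)`: every open `τ`-cover contains two disjoint `τ`-covers -/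
def SplitTT (Z : Type) [TopologicalSpace Z] : Prop :=
  ∀ 𝒰 : Set (Set Z), (∀ u ∈ 𝒰, IsOpen u) → Set.univ ∉ 𝒰 → TauFam 𝒰 →
    ∃ 𝒱 ⊆ 𝒰, ∃ 𝒲 ⊆ 𝒰, Disjoint 𝒱 𝒲 ∧ TauFam 𝒱 ∧ TauFam 𝒲

/-- Under CH, `Split(T, T)` is not preserved under finite powers. -/
theorem result : Cardinal.continuum.{0} = Cardinal.aleph 1 →
    ∃ X : Set ℝ, SplitTT X ∧ ¬ SplitTT (Fin 2 → X) := by
  intro hCH
  obtain ⟨X, -, x2, W, w1, w2, w3, w4⟩ := main hCH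
  refine ⟨X, fun 𝒰 h0 _ h1 => ?_, fun h => ?_⟩
  · obtain ⟨𝒢, g1, g3, g4⟩ := x2 𝒰 h0 h1.1 h1.2
    obtain ⟨A, a1, B, b1, d, a2, b2⟩ := split_inf g3
    have tau : ∀ C ⊆ 𝒢, C.Infinite → TauFam C := by
      intro C c1 c2
      have f : ∀ x, {u ∈ C | x ∉ u}.Finite := fun x => (g4 x).subset fun u hu => ⟨c1 hu.1, hu.2⟩
      exact ⟨fun x => gamma_large c2 (f x),
        fun x y => Or.inl ((f y).subset fun u hu => ⟨hu.1, hu.2.2⟩)⟩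
    exact ⟨A, a1.trans g1, B, b1.trans g1, d, tau A a1 a2, tau B b1 b2⟩
  · obtain ⟨n1, n2, n3, n4, n5⟩ := nosplit (Z := Fin 2 → X)
      (V := fun n => (fun p : Fin 2 → X => ((p 0).1, (p 1).1)) ⁻¹' W n)
      (fun n => (w1 n).preimage (by fun_prop))
      (fun p => w2 _ ⟨(p 0).2, (p 1).2⟩)
      (fun p q => w3 _ ⟨(p 0).2, (p 1).2⟩ _ ⟨(q 0).2, (q 1).2⟩) (fun A n => by
        obtain ⟨p, p1, p2⟩ := w4 A n
        exact ⟨![⟨p.1, p1.1⟩, ⟨p.2, p1.2⟩], p2⟩)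
    obtain ⟨A, a1, B, b1, d, a2, b2⟩ := h _ n1 n2 ⟨n3, n4⟩
    exact n5 A a1 B b1 d a2.1 b2.1

end Pool.Agent.Results.MP_bc74b8_gt.SplitTT
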